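import Pool.Agent.Helper68.VN.GoalsA

set_option autoImplicit false

namespace Pool.Agent.Helper83.VN.CARDB

open Pool.Agent.Helper68.VN
open Pool.Agent.Helper77.SGC (N0)

theorem card_Ax (σ : Type) [Fintype σ] (M e : ℕ) :
    Nat.card (Ax σ M e) = (4 ^ e * (M + 1)) ^ Fintype.card σ := by
  unfold Ax
  rw [Nat.card_pi]
  simp [Nat.card_prod]

theorem N0_le (M e : ℕ) : N0 M e + 1 ≤ 4 ^ e * (2 * M + 2) := by
  have h : 1 ≤ 4 ^ e := Nat.one_le_pow _ _ (by norm_num)
  unfold N0
  nlinarith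

theorem t_CARDB : CARDB := by
  intro σ _ _ n M δ k0 p c S0 e T _ gr U _ hp hbad hU hmain
  set m := Fintype.card σ with hm
  rcases Nat.eq_zero_or_pos n with hn | hn
  · subst hn
    have : IsEmpty (RowsB σ 0 M k0 e T gr U) := ⟨fun x => x.1.elim0⟩
    rw [Nat.card_of_isEmpty]
    simp
  have hIx : Nat.card (Ix σ n M δ e) = (∏ j, Nat.card (Ax σ M (e j))) * δ ^ m := by
    unfold Ix
    rw [Nat.card_prod, Nat.card_pi, Nat.card_pi]
    simp [hm]
  have hR : Nat.card (RowsB σ n M k0 e T gr U) = ∑ j : Fin n,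
      (∏ j' : {j' : Fin n // j' ≠ j}, Nat.card (Ax σ M (e j'.val))) *
        (2 ^ m * (2 ^ m * (Nat.card {t : T j // gr j t < k0 * 4 ^ e j} * Fintype.card U))) := by
    unfold RowsB
    rw [Nat.card_sigma]
    refine Finset.sum_congr rfl fun j _ => ?_
    rw [Nat.card_prod, Nat.card_prod, Nat.card_prod, Nat.card_prod, Nat.card_pi]
    congr 1
    congr 1
    · rw [Nat.card_pi]
      simp [hm]
    congr 1
    · rw [Nat.card_pi]
      simp [hm]
    · rw [Nat.card_eq_fintype_card (α := U)]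
  have hrow : ∀ j : Fin n, 2 * n * ((∏ j' : {j' : Fin n // j' ≠ j}, Nat.card (Ax σ M (e j'.val))) *
        (2 ^ m * (2 ^ m * (Nat.card {t : T j // gr j t < k0 * 4 ^ e j} * Fintype.card U)))) ≤
        Nat.card (Ix σ n M δ e) := by
    intro j
    rw [hIx, Fintype.prod_eq_mul_prod_subtype_ne (fun j => Nat.card (Ax σ M (e j))) j, card_Ax σ M (e j)]
    set P := ∏ j' : {j' : Fin n // j' ≠ j}, Nat.card (Ax σ M (e j'.val)) with hP
    set q := 4 ^ e j with hq
    have h1 : (N0 M (e j) + 1) ^ (m - p) ≤ q ^ (m - p) * (2 * M + 2) ^ (m - p) := by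
      rw [← mul_pow]
      exact Nat.pow_le_pow_left (N0_le M (e j)) _
    have h2 : Nat.card {t : T j // gr j t < k0 * q} * Fintype.card U ≤
        (c * (k0 * q) ^ p * (q ^ (m - p) * (2 * M + 2) ^ (m - p))) * S0 :=
      Nat.mul_le_mul (le_trans (hbad j) (Nat.mul_le_mul_left _ h1)) hU
    have hqq : q ^ p * q ^ (m - p) = q ^ m := by
      rw [← pow_add]
      congr 1
      omega
    have h3 : 2 * n * (2 ^ m * (2 ^ m * ((c * (k0 * q) ^ p * (q ^ (m - p) * (2 * M + 2) ^ (m - p))) * S0))) =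
        q ^ m * (2 * n * 4 ^ m * c * k0 ^ p * (2 * M + 2) ^ (m - p) * S0) := by
      rw [← hqq, mul_pow k0 q p, show (4 : ℕ) = 2 * 2 by norm_num, mul_pow 2 2 m]
      ring
    calc 2 * n * (P * (2 ^ m * (2 ^ m * (Nat.card {t : T j // gr j t < k0 * q} * Fintype.card U))))
        = P * (2 * n * (2 ^ m * (2 ^ m * (Nat.card {t : T j // gr j t < k0 * q} * Fintype.card U)))) := by ring
      _ ≤ P * (2 * n * (2 ^ m * (2 ^ m * ((c * (k0 * q) ^ p * (q ^ (m - p) * (2 * M + 2) ^ (m - p))) * S0)))) := by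
          apply Nat.mul_le_mul_left
          apply Nat.mul_le_mul_left
          apply Nat.mul_le_mul_left
          apply Nat.mul_le_mul_left
          exact h2
      _ = P * (q ^ m * (2 * n * 4 ^ m * c * k0 ^ p * (2 * M + 2) ^ (m - p) * S0)) := by rw [h3]
      _ ≤ P * (q ^ m * ((M + 1) ^ m * δ ^ m)) := by
          apply Nat.mul_le_mul_left
          apply Nat.mul_le_mul_left
          exact hmain
      _ = (q * (M + 1)) ^ m * P * δ ^ m := by
          rw [mul_pow]
          ring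
  have hsum : n * (2 * Nat.card (RowsB σ n M k0 e T gr U)) ≤ n * Nat.card (Ix σ n M δ e) := by
    calc n * (2 * Nat.card (RowsB σ n M k0 e T gr U)) = ∑ j : Fin n, 2 * n * ((∏ j' : {j' : Fin n // j' ≠ j}, Nat.card (Ax σ M (e j'.val))) *
        (2 ^ m * (2 ^ m * (Nat.card {t : T j // gr j t < k0 * 4 ^ e j} * Fintype.card U)))) := by
          rw [hR, ← Finset.mul_sum]
          ring
      _ ≤ ∑ _j : Fin n, Nat.card (Ix σ n M δ e) := Finset.sum_le_sum fun j _ => hrow j
      _ = n * Nat.card (Ix σ n M δ e) := by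
          rw [Finset.sum_const, Finset.card_univ, Fintype.card_fin, smul_eq_mul]
  exact Nat.le_of_mul_le_mul_left hsum hn

end Pool.Agent.Helper83.VN.CARDB
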